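import Pool.Agent.Helper87.MX.Fr

/-!
# MixingRates: separation along powers of four
-/

set_option autoImplicit false

open MeasureTheory Finset Filter

namespace Pool.Agent.Helper62.MX

open Pool.Agent.Helper87.MX

/-- the character `e(r)` -/
private noncomputable def ec (r : ℝ) : ℂ := Complex.exp (Complex.I * ((2 * Real.pi * r : ℝ) : ℂ))

private theorem ec_add (r s : ℝ) : ec (r + s) = ec r * ec s := by
  unfold ec
  rw [← Complex.exp_add]
  congr 1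
  push_cast
  ring

private theorem norm_ec (r : ℝ) : ‖ec r‖ = 1 := by
  unfold ec
  rw [mul_comm]
  exact Complex.norm_exp_ofReal_mul_I _

private theorem ec_int (n : ℤ) : ec n = 1 := by
  unfold ec
  rw [Complex.exp_eq_one_iff]
  exact ⟨n, by push_cast; ring⟩

private theorem ec_sub_one (r : ℝ) : ‖ec r - 1‖ ≤ 2 * Real.pi * |r| := by
  unfold ec
  refine Real.norm_exp_I_mul_ofReal_sub_one_le.trans ?_
  rw [Real.norm_eq_abs, abs_mul, abs_of_pos (by positivity : (0 : ℝ) < 2 * Real.pi)]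

private theorem ec_third {m : ℤ} (hm : ¬ (3 : ℤ) ∣ m) : ‖1 - ec ((m : ℝ) / 3)‖ ^ 2 = 3 := by
  have h3 : ec ((m : ℝ) / 3) ^ 3 = 1 := by
    have h1 : ec ((m : ℝ) / 3) ^ 3 = ec m := by
      rw [pow_succ, sq, ← ec_add, ← ec_add]
      congr 1
      ring
    rw [h1, ec_int]
  have h1 : ec ((m : ℝ) / 3) ≠ 1 := by
    intro h
    unfold ec at h
    rw [Complex.exp_eq_one_iff] at h
    obtain ⟨n, hn⟩ := h
    apply hm
    refine ⟨n, ?_⟩
    have hpi : (2 * Real.pi * Complex.I : ℂ) ≠ 0 := by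
      simp [Real.pi_ne_zero]
    have h4 : (m : ℂ) / 3 = n := by
      have h5 : (2 * Real.pi * Complex.I : ℂ) * ((m : ℂ) / 3) = (2 * Real.pi * Complex.I : ℂ) * n := by
        have h6 := hn
        push_cast at h6
        calc (2 * Real.pi * Complex.I : ℂ) * ((m : ℂ) / 3)
            = Complex.I * (2 * Real.pi * ((m : ℂ) / 3)) := by ring
          _ = n * (2 * Real.pi * Complex.I) := h6
          _ = (2 * Real.pi * Complex.I : ℂ) * n := by ring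
      exact mul_left_cancel₀ hpi h5
    have h7 : (m : ℂ) = 3 * n := by
      rw [← h4]; ring
    exact_mod_cast h7
  obtain ⟨w, hw⟩ : ∃ w : ℂ, w = ec ((m : ℝ) / 3) := ⟨_, rfl⟩
  have hn : ‖w‖ = 1 := by rw [hw]; exact norm_ec _
  rw [← hw] at h3 h1 ⊢
  have h8 : (1 - w) ^ 2 = -3 * w := by
    have h9 : (w - 1) * (w ^ 2 + w + 1) = 0 := by
      linear_combination h3
    have h10 : w ^ 2 + w + 1 = 0 := by
      rcases mul_eq_zero.1 h9 with h | h
      · exact absurd (sub_eq_zero.1 h) h1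
      · exact h
    linear_combination h10
  rw [← norm_pow, h8, norm_mul, hn]
  norm_num

private theorem fourier_ec (n : ℕ) (s : ℝ) : (fourier (n : ℤ) (s : Tor) : ℂ) = ec (n * s) := by
  rw [fourier_coe_apply]
  unfold ec
  congr 1
  push_cast
  rw [div_one]
  ring

private theorem ec_pow {k : ℕ} {b : ℕ} (hb : Even b) (m : ℤ) :
    ec ((k : ℝ) * 2 ^ b * ((m : ℝ) / 3)) = ec (((k * m : ℤ) : ℝ) / 3) := by
  obtain ⟨q, hq⟩ : ∃ q : ℕ, 2 ^ b = 3 * q + 1 := by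
    obtain ⟨r, hr⟩ := hb
    have h1 : 2 ^ b = 4 ^ r := by
      rw [hr, ← two_mul, pow_mul]
      norm_num
    have h2 : 4 ^ r % 3 = 1 := by
      rw [Nat.pow_mod]
      norm_num
    refine ⟨4 ^ r / 3, ?_⟩
    rw [h1]
    omega
  have h3 : (2 : ℝ) ^ b = 3 * q + 1 := by exact_mod_cast hq
  have h4 : (k : ℝ) * 2 ^ b * ((m : ℝ) / 3) = ((k * q * m : ℤ) : ℝ) + ((k * m : ℤ) : ℝ) / 3 := by
    rw [h3]
    push_cast
    ring
  rw [h4, ec_add, ec_int, one_mul]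

/-- two points at distance close to a multiple of `1 / 3` -/
private theorem far (k K : ℕ) (c : ℂ) (hk : ¬ 3 ∣ k) (hc : c ≠ 0) (F : Finset ℕ)
    (hF : ∀ b ∈ F, Even b ∧ Real.pi * k * 2 ^ b ≤ ‖c‖ * 3 ^ K) (s δ : ℝ) (m : ℤ)
    (hm : ¬ (3 : ℤ) ∣ m) (hδ : |δ| ≤ 1 / 3 ^ (K + 1))
    (hx : ‖rav 2 k F (s : Tor) - c‖ < ‖c‖ / 2)
    (hy : ‖rav 2 k F ((s + m / 3 + δ : ℝ) : Tor) - c‖ < ‖c‖ / 2) : False := by
  have hc0 : 0 < ‖c‖ := norm_pos_iff.2 hc
  have hkm : ¬ (3 : ℤ) ∣ (k : ℤ) * m := by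
    intro h
    rcases (Int.prime_three.dvd_mul).1 h with h | h
    · exact hk (by exact_mod_cast h)
    · exact hm h
  obtain ⟨w, hw⟩ : ∃ w : ℂ, w = ec ((((k : ℤ) * m : ℤ) : ℝ) / 3) := ⟨_, rfl⟩
  have hwn : ‖w‖ = 1 := by rw [hw]; exact norm_ec _
  have hw3 : ‖1 - w‖ ^ 2 = 3 := by rw [hw]; exact ec_third hkm
  -- the difference of the averages
  have h1 : ‖rav 2 k F ((s + m / 3 + δ : ℝ) : Tor) - w * rav 2 k F (s : Tor)‖ ≤ 2 / 3 * ‖c‖ := by
    unfold rav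
    rw [← mul_div_assoc, ← sub_div, mul_sum, ← sum_sub_distrib, norm_div, Complex.norm_natCast]
    rcases F.eq_empty_or_nonempty with h | h
    · subst h
      simp
    have hcard : (0 : ℝ) < F.card := by exact_mod_cast h.card_pos
    rw [div_le_iff₀ hcard]
    refine (norm_sum_le _ _).trans ?_
    have h2 : ∀ b ∈ F, ‖(fourier ((k * 2 ^ b : ℕ) : ℤ) ((s + m / 3 + δ : ℝ) : Tor) : ℂ) -
        w * (fourier ((k * 2 ^ b : ℕ) : ℤ) (s : Tor) : ℂ)‖ ≤ 2 / 3 * ‖c‖ := by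
      intro b hb
      obtain ⟨hb1, hb2⟩ := hF b hb
      rw [fourier_ec, fourier_ec]
      have h3 : ((k * 2 ^ b : ℕ) : ℝ) * (s + m / 3 + δ) = ((k * 2 ^ b : ℕ) : ℝ) * s +
          ((k : ℝ) * 2 ^ b * ((m : ℝ) / 3) + (k : ℝ) * 2 ^ b * δ) := by
        push_cast
        ring
      rw [h3, ec_add, ec_add, ec_pow hb1, ← hw]
      have h4 : ec (((k * 2 ^ b : ℕ) : ℝ) * s) * (w * ec ((k : ℝ) * 2 ^ b * δ)) -
          w * ec (((k * 2 ^ b : ℕ) : ℝ) * s) =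
          ec (((k * 2 ^ b : ℕ) : ℝ) * s) * w * (ec ((k : ℝ) * 2 ^ b * δ) - 1) := by ring
      rw [h4, norm_mul, norm_mul, norm_ec, hwn, one_mul, one_mul]
      refine (ec_sub_one _).trans ?_
      rw [abs_mul, abs_of_nonneg (by positivity : (0 : ℝ) ≤ (k : ℝ) * 2 ^ b)]
      have h5 : 2 * Real.pi * ((k : ℝ) * 2 ^ b * |δ|) ≤
          2 * Real.pi * ((k : ℝ) * 2 ^ b * (1 / 3 ^ (K + 1))) := by
        have : 0 ≤ Real.pi := Real.pi_pos.le
        gcongr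
      refine h5.trans ?_
      have h6 : 2 * Real.pi * ((k : ℝ) * 2 ^ b * (1 / 3 ^ (K + 1))) =
          2 / 3 * (Real.pi * k * 2 ^ b / 3 ^ K) := by
        rw [pow_succ]
        field_simp
      rw [h6]
      have h7 : Real.pi * k * 2 ^ b / 3 ^ K ≤ ‖c‖ := (div_le_iff₀ (by positivity)).2 hb2
      linarith
    refine (sum_le_sum h2).trans ?_
    rw [sum_const, nsmul_eq_mul, mul_comm]
  -- the triangle inequality
  have h2 : ‖(1 - w) * c‖ < 5 / 3 * ‖c‖ := by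
    have h3 : (1 - w) * c = (c - rav 2 k F ((s + m / 3 + δ : ℝ) : Tor)) +
        (rav 2 k F ((s + m / 3 + δ : ℝ) : Tor) - w * rav 2 k F (s : Tor)) +
        w * (rav 2 k F (s : Tor) - c) := by ring
    rw [h3]
    have h4 : ‖c - rav 2 k F ((s + m / 3 + δ : ℝ) : Tor)‖ < ‖c‖ / 2 := by
      rw [norm_sub_rev]; exact hy
    have h5 : ‖w * (rav 2 k F (s : Tor) - c)‖ < ‖c‖ / 2 := by
      rw [norm_mul, hwn, one_mul]; exact hx
    have h6 := norm_add_le ((c - rav 2 k F ((s + m / 3 + δ : ℝ) : Tor)) +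
        (rav 2 k F ((s + m / 3 + δ : ℝ) : Tor) - w * rav 2 k F (s : Tor)))
        (w * (rav 2 k F (s : Tor) - c))
    have h7 := norm_add_le (c - rav 2 k F ((s + m / 3 + δ : ℝ) : Tor))
        (rav 2 k F ((s + m / 3 + δ : ℝ) : Tor) - w * rav 2 k F (s : Tor))
    linarith
  rw [norm_mul] at h2
  have h3 : ‖1 - w‖ < 5 / 3 := lt_of_mul_lt_mul_right h2 hc0.le
  nlinarith [norm_nonneg (1 - w)]

theorem s_S3 : S_S3 := by
  intro k K c G hk hc hG i hi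
  -- two different arcs do not both meet `G`
  have key : ∀ l₁ l₂ : ℕ, l₁ < 3 → l₂ < 3 → l₁ ≠ l₂ →
      ∀ x ∈ arc3 (K + 1) (i + l₁ * 3 ^ K), ∀ y ∈ arc3 (K + 1) (i + l₂ * 3 ^ K),
        x ∈ G → y ∈ G → False := by
    intro l₁ l₂ h1 h2 h12 x hx y hy hxG hyG
    obtain ⟨F, hF, hFx, hFy⟩ := hG x hxG y hyG
    obtain ⟨s, ⟨hs1, hs2⟩, rfl⟩ := hx
    obtain ⟨t, ⟨ht1, ht2⟩, rfl⟩ := hy
    have h3 : ¬ (3 : ℤ) ∣ ((l₂ : ℤ) - l₁) := by omega
    refine far k K c hk hc F hF s (t - s - (((l₂ : ℤ) - l₁ : ℤ) : ℝ) / 3) ((l₂ : ℤ) - l₁) h3 ?_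
      hFx ?_
    · have hK : (0 : ℝ) < 3 ^ K := by positivity
      have e1 : ((i + l₁ * 3 ^ K : ℕ) : ℝ) / 3 ^ (K + 1) = i / 3 ^ (K + 1) + l₁ / 3 := by
        rw [pow_succ]
        push_cast
        field_simp
      have e2 : ((i + l₂ * 3 ^ K : ℕ) : ℝ) / 3 ^ (K + 1) = i / 3 ^ (K + 1) + l₂ / 3 := by
        rw [pow_succ]
        push_cast
        field_simp
      rw [add_div, e1] at hs2
      rw [e1] at hs1
      rw [add_div, e2] at ht2
      rw [e2] at ht1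
      rw [abs_le]
      push_cast
      constructor <;> linarith
    · convert hFy using 5
      ring
  by_cases h : ∃ l < 3, ∃ x ∈ arc3 (K + 1) (i + l * 3 ^ K), x ∈ G
  · obtain ⟨l, hl, x, hx, hxG⟩ := h
    exact ⟨l, hl, fun l' hl' hne y hy hyG => key l l' hl hl' hne.symm x hx y hy hxG hyG⟩
  · push_neg at h
    exact ⟨0, by norm_num, fun l' hl' _ x hx => h l' hl' x hx⟩

end Pool.Agent.Helper62.MX
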